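import Pool.Agent.W477.CN.Defs

namespace W477.CN.W737E

open W477.CN Set

variable {X G : Type} [Group G] [MulAction G X]

theorem act_one (p : X × ℕ) : act (1 : G × Equiv.Perm ℕ) p = p := by
  simp [act]

theorem act_mul (k h : G × Equiv.Perm ℕ) (p : X × ℕ) : act (k * h) p = act k (act h p) := by
  simp [act, mul_smul]

theorem act_inv_act (h : G × Equiv.Perm ℕ) (p : X × ℕ) : act h⁻¹ (act h p) = p := by
  rw [← act_mul, inv_mul_cancel, act_one]

theorem act_act_inv (h : G × Equiv.Perm ℕ) (p : X × ℕ) : act h (act h⁻¹ p) = p := by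
  rw [← act_mul, mul_inv_cancel, act_one]

theorem act_inj (h : G × Equiv.Perm ℕ) : Function.Injective (act h : X × ℕ → X × ℕ) := by
  intro p q e
  rw [← act_inv_act h p, e, act_inv_act]

theorem act_one_fun : (act (1 : G × Equiv.Perm ℕ) : X × ℕ → X × ℕ) = id := by
  funext p; exact act_one p

theorem equiv_holds (h : P_star) : P_equiv := by
  intro X G _ _ 𝒜 hA hI
  obtain ⟨h0, hb, hs, ha⟩ := h X G 𝒜 hA hI
  refine ⟨?_, ?_, ?_⟩
  · intro A hAs
    refine ⟨Unit, inferInstance, fun _ => A, fun _ => 1, fun _ => hAs, ?_, ?_, ?_, ?_⟩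
    · intro i j hij; exact absurd (Subsingleton.elim i j) hij
    · exact iUnion_const A
    · intro i j hij; exact absurd (Subsingleton.elim i j) hij
    · have e : act (1 : G × Equiv.Perm ℕ) '' A = A := by rw [act_one_fun, image_id]
      change (⋃ _ : Unit, act (1 : G × Equiv.Perm ℕ) '' A) = A
      rw [e]
      exact iUnion_const A
  · rintro A B ⟨ι, hι, P, g, h1, h2, h3, h4, h5⟩
    refine ⟨ι, hι, fun i => act (g i) '' P i, fun i => (g i)⁻¹, fun i => ha _ (h1 i) _, h4, h5, ?_,
      ?_⟩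
    · intro i j hij
      have e : ∀ i, act (g i)⁻¹ '' (act (g i) '' P i) = P i := by
        intro i
        rw [← image_comp]
        have : (act (g i)⁻¹ ∘ act (g i) : X × ℕ → X × ℕ) = id := by
          funext p; exact act_inv_act _ p
        rw [this, image_id]
      simp only [e]
      exact h2 i j hij
    · have e : ∀ i, act (g i)⁻¹ '' (act (g i) '' P i) = P i := by
        intro i
        rw [← image_comp]
        have : (act (g i)⁻¹ ∘ act (g i) : X × ℕ → X × ℕ) = id := by
          funext p; exact act_inv_act _ p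
        rw [this, image_id]
      simp only [e]
      exact h3
  · rintro A B C ⟨ι, hι, P, g, p1, p2, p3, p4, p5⟩ ⟨κ, hκ, Q, k, q1, q2, q3, q4, q5⟩
    refine ⟨ι × κ, inferInstance, fun z => P z.1 ∩ act (g z.1)⁻¹ '' Q z.2,
      fun z => k z.2 * g z.1, ?_, ?_, ?_, ?_, ?_⟩
    · rintro ⟨i, j⟩
      exact (hb _ (p1 i) _ (ha _ (q1 j) _)).2.1
    · rintro ⟨i, j⟩ ⟨i', j'⟩ hne
      rw [disjoint_left]
      rintro x ⟨hx1, q, hq, hqx⟩ ⟨hx1', q', hq', hqx'⟩
      by_cases hi : i = i'
      · subst hi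
        have hj : j ≠ j' := fun e => hne (by rw [e])
        have : q = q' := act_inj _ (hqx.trans hqx'.symm)
        subst this
        exact disjoint_left.1 (q2 j j' hj) hq hq'
      · exact disjoint_left.1 (p2 i i' hi) hx1 hx1'
    · rw [← p3]
      ext x
      simp only [mem_iUnion]
      constructor
      · rintro ⟨⟨i, j⟩, hx, _⟩
        exact ⟨i, hx⟩
      · rintro ⟨i, hx⟩
        have hB : act (g i) x ∈ B := by
          rw [← p5]
          exact mem_iUnion.2 ⟨i, x, hx, rfl⟩
        rw [← q3] at hB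
        obtain ⟨j, hj⟩ := mem_iUnion.1 hB
        exact ⟨(i, j), hx, _, hj, act_inv_act _ _⟩
    · rintro ⟨i, j⟩ ⟨i', j'⟩ hne
      rw [disjoint_left]
      rintro y ⟨x, ⟨hx1, q, hq, hqx⟩, hxy⟩ ⟨x', ⟨hx1', q', hq', hqx'⟩, hxy'⟩
      have e1 : act (k j) q = y := by
        rw [← hxy, act_mul, ← hqx, act_act_inv]
      have e2 : act (k j') q' = y := by
        rw [← hxy', act_mul, ← hqx', act_act_inv]
      by_cases hj : j = j'
      · subst hj
        have hi : i ≠ i' := fun e => hne (by rw [e])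
        have hqq : q = q' := act_inj _ (e1.trans e2.symm)
        subst hqq
        have f1 : q ∈ act (g i) '' P i := ⟨x, hx1, by rw [← hqx, act_act_inv]⟩
        have f2 : q ∈ act (g i') '' P i' := ⟨x', hx1', by rw [← hqx', act_act_inv]⟩
        exact disjoint_left.1 (p4 i i' hi) f1 f2
      · exact disjoint_left.1 (q4 j j' hj) ⟨q, hq, e1⟩ ⟨q', hq', e2⟩
    · rw [← q5]
      ext y
      simp only [mem_iUnion]
      constructor
      · rintro ⟨⟨i, j⟩, x, ⟨hx1, q, hq, hqx⟩, hxy⟩
        refine ⟨j, q, hq, ?_⟩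
        have hxy2 : act (k j * g i) x = y := hxy
        rw [← hxy2, act_mul, ← hqx, act_act_inv]
      · rintro ⟨j, q, hq, hqy⟩
        have hB : q ∈ B := by
          rw [← q3]
          exact mem_iUnion.2 ⟨j, hq⟩
        rw [← p5] at hB
        obtain ⟨i, x, hx, hxq⟩ := mem_iUnion.1 hB
        refine ⟨(i, j), x, ⟨hx, q, hq, ?_⟩, ?_⟩
        · rw [← hxq, act_inv_act]
        · change act (k j * g i) x = y
          rw [act_mul, hxq, hqy]

end W477.CN.W737E
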